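import Pool.Agent.Q255.TQ.Stm
import Pool.Agent.Erdos456.Mertens

/-!
# Project TQ, job BBU: tuples with a square product
-/

set_option autoImplicit false
set_option linter.all false

namespace Pool.Agent.Q208.TQ

open Finset Filter Topology Pool.Agent.Q255.TQ

noncomputable section

/-- the constant function one -/
def ZZ : ArithmeticFunction ℝ := ⟨fun n => if n = 0 then 0 else 1, by simp⟩

theorem ZZ_apply {n : ℕ} (h : n ≠ 0) : ZZ n = 1 := if_neg h

theorem ZZ_nonneg (n : ℕ) : 0 ≤ ZZ n := by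
  show 0 ≤ (if n = 0 then (0 : ℝ) else 1)
  split_ifs <;> norm_num

theorem ZZ_mult : ZZ.IsMultiplicative := by
  refine ⟨ZZ_apply one_ne_zero, ?_⟩
  intro m n _
  by_cases hm : m = 0
  · subst hm
    rw [zero_mul]
    show (if (0 : ℕ) = 0 then (0 : ℝ) else 1) = (if (0 : ℕ) = 0 then (0 : ℝ) else 1) * _
    simp
  by_cases hn : n = 0
  · subst hn
    rw [mul_zero]
    show (if (0 : ℕ) = 0 then (0 : ℝ) else 1) = _ * (if (0 : ℕ) = 0 then (0 : ℝ) else 1)
    simp
  rw [ZZ_apply hm, ZZ_apply hn, ZZ_apply (mul_ne_zero hm hn), one_mul]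

theorem zpw_mult (n : ℕ) : (ZZ ^ n).IsMultiplicative := by
  induction n with
  | zero =>
    rw [pow_zero]
    exact ArithmeticFunction.isMultiplicative_one
  | succ n ih =>
    rw [pow_succ]
    exact ih.mul ZZ_mult

theorem zpw_nonneg (n m : ℕ) : 0 ≤ (ZZ ^ n) m := by
  induction n generalizing m with
  | zero =>
    rw [pow_zero, ArithmeticFunction.one_apply]
    split_ifs <;> norm_num
  | succ n ih =>
    rw [pow_succ, ArithmeticFunction.mul_apply]
    exact sum_nonneg fun x _ => mul_nonneg (ih _) (ZZ_nonneg _)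

/-- number of tuples with given product -/
theorem card_tu (N k m : ℕ) (hm : 1 ≤ m) :
    (((Tu k N).filter (fun t => ∏ i, t i = m)).card : ℝ) ≤ (ZZ ^ k) m := by
  induction k generalizing m with
  | zero =>
    rw [pow_zero, ArithmeticFunction.one_apply]
    by_cases h1 : m = 1
    · rw [if_pos h1]
      have : ((Tu 0 N).filter (fun t => ∏ i, t i = m)).card ≤ 1 := by
        refine (card_filter_le _ _).trans ?_
        unfold Tu
        rw [Fintype.card_piFinset]
        simp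
      exact_mod_cast this
    · rw [if_neg h1, filter_false_of_mem]
      · simp
      · intro t _
        simp
        omega
  | succ k ih =>
    rw [pow_succ, ArithmeticFunction.mul_apply]
    have h1 : ((Tu (k + 1) N).filter (fun t => ∏ i, t i = m)).card ≤
        ∑ x ∈ m.divisorsAntidiagonal, ((Tu k N).filter (fun t => ∏ i, t i = x.1)).card := by
      rw [← card_sigma]
      refine card_le_card_of_injOn (fun t => ⟨(∏ i, Fin.tail t i, t 0), Fin.tail t⟩) ?_ ?_
      · intro t ht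
        rw [mem_coe, mem_filter] at ht
        rw [mem_coe, mem_sigma]
        have h2 := ht.2
        rw [Fin.prod_univ_succ] at h2
        refine ⟨?_, ?_⟩
        · rw [Nat.mem_divisorsAntidiagonal]
          refine ⟨?_, by omega⟩
          rw [← h2, mul_comm]
          rfl
        · rw [mem_filter]
          refine ⟨?_, rfl⟩
          have h3 := ht.1
          unfold Tu at h3 ⊢
          rw [Fintype.mem_piFinset] at h3 ⊢
          exact fun i => h3 i.succ
      · intro t _ t' _ h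
        simp only [Sigma.mk.injEq, Prod.mk.injEq] at h
        have h2 : Fin.tail t = Fin.tail t' := eq_of_heq h.2
        rw [← Fin.cons_self_tail t, ← Fin.cons_self_tail t', h2, h.1.2]
    calc (((Tu (k + 1) N).filter (fun t => ∏ i, t i = m)).card : ℝ)
        ≤ ((∑ x ∈ m.divisorsAntidiagonal, ((Tu k N).filter (fun t => ∏ i, t i = x.1)).card : ℕ) : ℝ) := by
          exact_mod_cast h1
      _ = ∑ x ∈ m.divisorsAntidiagonal, (((Tu k N).filter (fun t => ∏ i, t i = x.1)).card : ℝ) := by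
          push_cast
          rfl
      _ ≤ ∑ x ∈ m.divisorsAntidiagonal, (ZZ ^ k) x.1 * ZZ x.2 := by
          refine sum_le_sum fun x hx => ?_
          rw [Nat.mem_divisorsAntidiagonal] at hx
          have hx1 : x.1 ≠ 0 := fun h => hx.2 (by rw [← hx.1, h, zero_mul])
          have hx2 : x.2 ≠ 0 := fun h => hx.2 (by rw [← hx.1, h, mul_zero])
          rw [ZZ_apply hx2, mul_one]
          exact ih x.1 (by omega)

theorem zmul_prime_pow (A B : ArithmeticFunction ℝ) {p : ℕ} (hp : p.Prime) (m : ℕ) :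
    (A * B) (p ^ m) = ∑ x ∈ antidiagonal m, A (p ^ x.1) * B (p ^ x.2) := by
  rw [ArithmeticFunction.mul_apply]
  rw [Nat.sum_divisorsAntidiagonal (fun i j => A i * B j), Nat.divisors_prime_pow hp, sum_map]
  simp only [Function.Embedding.coeFn_mk]
  rw [Nat.sum_antidiagonal_eq_sum_range_succ (fun i j => A (p ^ i) * B (p ^ j))]
  refine sum_congr rfl fun i hi => ?_
  rw [mem_range] at hi
  rw [Nat.pow_div (by omega) hp.pos]

/-- the coefficients of `(1 - x)^{-n}` -/
def ec : ℕ → ℕ → ℝ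
  | 0, a => if a = 0 then 1 else 0
  | n + 1, a => ∑ i ∈ range (a + 1), ec n i

theorem ec_succ (n a : ℕ) : ec (n + 1) a = ∑ i ∈ range (a + 1), ec n i := rfl

theorem ec_nonneg (n a : ℕ) : 0 ≤ ec n a := by
  induction n generalizing a with
  | zero =>
    show 0 ≤ (if a = 0 then (1 : ℝ) else 0)
    split_ifs <;> norm_num
  | succ n ih =>
    rw [ec_succ]
    exact sum_nonneg fun x _ => ih _

theorem ec_le (n a : ℕ) : ec n a ≤ ((a : ℝ) + 1) ^ n := by
  induction n generalizing a with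
  | zero =>
    show (if a = 0 then (1 : ℝ) else 0) ≤ _
    split_ifs <;> norm_num
  | succ n ih =>
    rw [ec_succ]
    calc ∑ i ∈ range (a + 1), ec n i ≤ ∑ i ∈ range (a + 1), ((a : ℝ) + 1) ^ n := by
          refine sum_le_sum fun i hi => (ih i).trans ?_
          rw [mem_range] at hi
          have : (i : ℝ) ≤ a := by exact_mod_cast (by omega : i ≤ a)
          exact pow_le_pow_left₀ (by positivity) (by linarith) n
      _ = ((a : ℝ) + 1) ^ (n + 1) := by
          rw [sum_const, card_range, nsmul_eq_mul]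
          push_cast
          ring

theorem ec0 (n : ℕ) : ec n 0 = 1 := by
  induction n with
  | zero => rfl
  | succ n ih =>
    rw [ec_succ]
    simp [ih]

theorem ec1 (n : ℕ) : ec n 1 = n := by
  induction n with
  | zero =>
    show (if (1 : ℕ) = 0 then (1 : ℝ) else 0) = _
    simp
  | succ n ih =>
    rw [ec_succ, sum_range_succ, sum_range_succ, range_zero, sum_empty, ih, ec0]
    push_cast
    ring

theorem ec2 (n : ℕ) : ec n 2 = n * (n + 1) / 2 := by
  induction n with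
  | zero =>
    show (if (2 : ℕ) = 0 then (1 : ℝ) else 0) = _
    simp
  | succ n ih =>
    rw [ec_succ, sum_range_succ, sum_range_succ, sum_range_succ, range_zero, sum_empty, ih, ec0, ec1]
    push_cast
    ring

theorem zpw_pp {p : ℕ} (hp : p.Prime) (n a : ℕ) : (ZZ ^ n) (p ^ a) = ec n a := by
  induction n generalizing a with
  | zero =>
    rw [pow_zero, ArithmeticFunction.one_apply]
    show _ = (if a = 0 then (1 : ℝ) else 0)
    by_cases ha : a = 0
    · rw [ha, pow_zero, if_pos rfl, if_pos rfl]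
    · rw [if_neg ha, if_neg]
      intro h3
      have := Nat.one_lt_pow ha hp.one_lt
      omega
  | succ n ih =>
    rw [pow_succ, zmul_prime_pow _ _ hp, ec_succ,
      Nat.sum_antidiagonal_eq_sum_range_succ (fun i j => (ZZ ^ n) (p ^ i) * ZZ (p ^ j))]
    refine sum_congr rfl fun x hx => ?_
    rw [ih, ZZ_apply (pow_ne_zero _ hp.ne_zero), mul_one]

/-- the values at the squares -/
def hq (k j : ℕ) : ℝ := (ZZ ^ k) (j ^ 2) / j

theorem hq_nonneg (k j : ℕ) : 0 ≤ hq k j := div_nonneg (zpw_nonneg _ _) (Nat.cast_nonneg _)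

theorem hq_one (k : ℕ) : hq k 1 = 1 := by
  unfold hq
  rw [one_pow, Nat.cast_one, div_one]
  exact (zpw_mult _).1

theorem hq_mul (k : ℕ) {m n : ℕ} (h : m.Coprime n) : hq k (m * n) = hq k m * hq k n := by
  unfold hq
  rw [mul_pow, (zpw_mult _).2 (h.pow 2 2), Nat.cast_mul, mul_div_mul_comm]

theorem hq_pp (k : ℕ) {p : ℕ} (hp : p.Prime) (i : ℕ) : hq k (p ^ i) = ec k (2 * i) / (p : ℝ) ^ i := by
  unfold hq
  rw [← pow_mul, zpw_pp hp, mul_comm i 2]
  push_cast
  rfl

theorem sm_aux (k : ℕ) : Summable (fun j : ℕ => (2 * (j : ℝ) + 5) ^ k * (1 / 2) ^ j) := by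
  have h1 : Summable (fun j : ℕ => (j : ℝ) ^ k * (1 / 2 : ℝ) ^ j) := by
    have := summable_pow_mul_geometric_of_norm_lt_one (R := ℝ) k (r := 1 / 2) (by norm_num)
    exact this
  have h2 : Summable (fun j : ℕ => (1 / 2 : ℝ) ^ j) := summable_geometric_of_lt_one (by norm_num) (by norm_num)
  refine Summable.of_nonneg_of_le (fun j => by positivity) (fun j => ?_)
    ((h1.mul_left (7 ^ k)).add (h2.mul_left (5 ^ k)))
  by_cases hj : j = 0
  · subst hj
    simp only [Nat.cast_zero, mul_zero, zero_add, pow_zero, mul_one]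
    have : 0 ≤ (7 : ℝ) ^ k * 0 ^ k := by positivity
    linarith
  · have hj1 : (1 : ℝ) ≤ j := by exact_mod_cast (by omega : 1 ≤ j)
    have h3 : (2 * (j : ℝ) + 5) ^ k ≤ (7 * j) ^ k := pow_le_pow_left₀ (by positivity) (by linarith) k
    rw [mul_pow] at h3
    have h4 : 0 ≤ (5 : ℝ) ^ k * (1 / 2 : ℝ) ^ j := by positivity
    have h5 := mul_le_mul_of_nonneg_right h3 (by positivity : (0 : ℝ) ≤ (1 / 2) ^ j)
    linarith

theorem hq_bd (k : ℕ) {p : ℕ} (hp : p.Prime) (i : ℕ) :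
    hq k (p ^ (i + 2)) ≤ ((2 * (i : ℝ) + 5) ^ k * (1 / 2) ^ i) * (1 / (p : ℝ) ^ 2) := by
  have hp0 : (0 : ℝ) < p := by exact_mod_cast hp.pos
  have hp2 : (2 : ℝ) ≤ p := by exact_mod_cast hp.two_le
  rw [hq_pp k hp, pow_add]
  have h1 := ec_le k (2 * (i + 2))
  have h2 : ((2 * (i + 2) : ℕ) : ℝ) + 1 = 2 * i + 5 := by
    push_cast
    ring
  rw [h2] at h1
  have h3 : 1 / (p : ℝ) ^ i ≤ (1 / 2) ^ i := by
    rw [← one_div_pow]
    exact pow_le_pow_left₀ (by positivity) (one_div_le_one_div_of_le (by norm_num) hp2) i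
  calc ec k (2 * (i + 2)) / ((p : ℝ) ^ i * (p : ℝ) ^ 2)
      = ec k (2 * (i + 2)) * (1 / (p : ℝ) ^ i) * (1 / (p : ℝ) ^ 2) := by
        rw [mul_assoc, one_div_mul_one_div, mul_one_div]
    _ ≤ ((2 * (i : ℝ) + 5) ^ k * (1 / 2) ^ i) * (1 / (p : ℝ) ^ 2) := by
        refine mul_le_mul_of_nonneg_right ?_ (by positivity)
        exact mul_le_mul h1 h3 (by positivity) (by positivity)

theorem hq_summ (k : ℕ) {p : ℕ} (hp : p.Prime) : Summable (fun i : ℕ => hq k (p ^ i)) := by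
  rw [← summable_nat_add_iff 2]
  exact Summable.of_nonneg_of_le (fun i => hq_nonneg _ _) (fun i => hq_bd k hp i)
    ((sm_aux k).mul_right _)

theorem hq_tsum (k : ℕ) {p : ℕ} (hp : p.Prime) :
    ∑' i : ℕ, hq k (p ^ i) ≤ 1 + ((k * (k + 1) / 2 : ℕ) : ℝ) / p +
      (∑' j : ℕ, (2 * (j : ℝ) + 5) ^ k * (1 / 2) ^ j) / (p : ℝ) ^ 2 := by
  have hs := hq_summ k hp
  rw [← hs.sum_add_tsum_nat_add 2, sum_range_succ, sum_range_succ, range_zero, sum_empty]
  have h0 : hq k (p ^ 0) = 1 := by rw [pow_zero, hq_one]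
  have h1 : hq k (p ^ 1) = ((k * (k + 1) / 2 : ℕ) : ℝ) / p := by
    rw [hq_pp k hp, pow_one, show 2 * 1 = 2 by norm_num, ec2,
      Nat.cast_div (Nat.even_mul_succ_self k).two_dvd (by norm_num)]
    push_cast
    rfl
  have h2 : ∑' i : ℕ, hq k (p ^ (i + 2)) ≤
      (∑' j : ℕ, (2 * (j : ℝ) + 5) ^ k * (1 / 2) ^ j) / (p : ℝ) ^ 2 := by
    rw [div_eq_mul_one_div, ← tsum_mul_right]
    exact Summable.tsum_le_tsum (fun i => hq_bd k hp i) ((summable_nat_add_iff 2).2 hs)
      ((sm_aux k).mul_right _)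
  rw [h0, h1]
  linarith

theorem zsum_inv : ∃ C : ℝ, ∀ N : ℕ, 1 ≤ N →
    ∑ p ∈ (N + 1).primesBelow, (1 : ℝ) / p ≤ Real.log (1 + Real.log N) + C := by
  obtain ⟨C, hC⟩ := Pool.Agent.Erdos456.Mert.mertens_inv
  have hset : ∀ N : ℕ, (N + 1).primesBelow = (Finset.Icc 1 N).filter Nat.Prime := by
    intro N
    ext p
    rw [Nat.mem_primesBelow, mem_filter, mem_Icc]
    constructor
    · rintro ⟨h1, h2⟩
      exact ⟨⟨h2.one_lt.le, by omega⟩, h2⟩
    · rintro ⟨h1, h2⟩
      exact ⟨by omega, h2⟩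
  refine ⟨|C| + (∑ p ∈ (Finset.Icc 1 3).filter Nat.Prime, (1 : ℝ) / p), fun N hN => ?_⟩
  have hL : 0 ≤ Real.log N := Real.log_nonneg (by exact_mod_cast hN)
  have hS : 0 ≤ ∑ p ∈ (Finset.Icc 1 3).filter Nat.Prime, (1 : ℝ) / p :=
    sum_nonneg fun p _ => by positivity
  rw [hset]
  by_cases h3 : 3 ≤ N
  · have h1 := (abs_le.1 (hC N h3)).2
    have hL1 : 0 < Real.log N := Real.log_pos (by exact_mod_cast (by omega : 1 < N))
    have h2 : Real.log (Real.log N) ≤ Real.log (1 + Real.log N) :=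
      Real.log_le_log hL1 (by linarith)
    have h4 := le_abs_self C
    linarith
  · have h1 : ∑ p ∈ (Finset.Icc 1 N).filter Nat.Prime, (1 : ℝ) / p ≤
        ∑ p ∈ (Finset.Icc 1 3).filter Nat.Prime, (1 : ℝ) / p := by
      refine sum_le_sum_of_subset_of_nonneg ?_ fun p _ _ => by positivity
      intro p hp
      rw [mem_filter, mem_Icc] at hp ⊢
      exact ⟨⟨hp.1.1, by omega⟩, hp.2⟩
    have h2 : 0 ≤ Real.log (1 + Real.log N) := Real.log_nonneg (by linarith)
    have h4 := abs_nonneg C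
    linarith

theorem bbu : S_BBU := by
  intro k hk
  obtain ⟨C1, hC1⟩ := zsum_inv
  obtain ⟨K, hK⟩ : ∃ K : ℕ, K = k * (k + 1) / 2 := ⟨_, rfl⟩
  obtain ⟨D, hD⟩ : ∃ D : ℝ, D = ∑' j : ℕ, (2 * (j : ℝ) + 5) ^ k * (1 / 2) ^ j := ⟨_, rfl⟩
  have hD0 : 0 ≤ D := by rw [hD]; exact tsum_nonneg fun j => by positivity
  have hs : Summable (fun n : ℕ => 1 / (n : ℝ) ^ 2) := Real.summable_one_div_nat_pow.2 (by norm_num)
  obtain ⟨S, hS⟩ : ∃ S : ℝ, S = ∑' n : ℕ, 1 / (n : ℝ) ^ 2 := ⟨_, rfl⟩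
  have hl2 : 0 < Real.log 2 := Real.log_pos (by norm_num)
  obtain ⟨c2, hc2⟩ : ∃ c2 : ℝ, c2 = 1 + 1 / Real.log 2 := ⟨_, rfl⟩
  have hc20 : 0 < c2 := by rw [hc2]; positivity
  refine ⟨Real.exp (K * C1 + D * S) * c2 ^ K, by positivity, fun N0 hN0 => ?_⟩
  rw [← hK]
  have hLL : Real.log 2 ≤ Real.log N0 := Real.log_le_log (by norm_num) (by exact_mod_cast hN0)
  have hL : 0 ≤ Real.log N0 := hl2.le.trans hLL
  -- the Euler product
  obtain ⟨hE1, hE2⟩ := EulerProduct.summable_and_hasSum_smoothNumbers_prod_primesBelow_tsum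
    (f := hq k) (hq_one k) (fun {m n} h => hq_mul k h)
    (fun {p} hp => (hq_summ k hp).norm) (N0 + 1)
  obtain ⟨T, hT⟩ : ∃ T : Finset (Fin k → ℕ), T = (Tu k N0).filter (fun t => IsSquare (∏ i, t i)) :=
    ⟨_, rfl⟩
  rw [← hT]
  have hTm : ∀ t ∈ T, (∀ i, 1 ≤ t i ∧ t i ≤ N0) ∧ IsSquare (∏ i, t i) := by
    intro t ht
    rw [hT, mem_filter] at ht
    unfold Tu at ht
    rw [Fintype.mem_piFinset] at ht
    exact ⟨fun i => mem_Icc.1 (ht.1 i), ht.2⟩
  have hTp : ∀ t ∈ T, 1 ≤ ∏ i, t i := by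
    intro t ht
    exact Nat.one_le_iff_ne_zero.2 (prod_ne_zero_iff.2 fun i _ => by
      have := ((hTm t ht).1 i).1
      omega)
  obtain ⟨F, hF⟩ : ∃ F : Finset ℕ, F = T.image (fun t => Nat.sqrt (∏ i, t i)) := ⟨_, rfl⟩
  have hsq : ∀ t ∈ T, (Nat.sqrt (∏ i, t i)) ^ 2 = ∏ i, t i := by
    intro t ht
    obtain ⟨r, hr⟩ := (hTm t ht).2
    rw [hr, Nat.sqrt_eq, sq]
  have h1 : ∑ t ∈ T, 1 / Real.sqrt ((∏ i, t i : ℕ) : ℝ) ≤ ∑ j ∈ F, hq k j := by
    rw [← sum_fiberwise_of_maps_to (s := T) (t := F) (g := fun t => Nat.sqrt (∏ i, t i))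
      (fun t ht => by rw [hF]; exact mem_image_of_mem _ ht)]
    refine sum_le_sum fun j hj => ?_
    have hj1 : 1 ≤ j := by
      rw [hF, mem_image] at hj
      obtain ⟨t, ht, rfl⟩ := hj
      have e1 := hsq t ht
      have e2 := hTp t ht
      by_contra hcon
      have e3 : Nat.sqrt (∏ i, t i) = 0 := by omega
      rw [e3] at e1
      norm_num at e1
      omega
    have hj0 : (0 : ℝ) < j := by exact_mod_cast hj1
    have h2 : ∀ t ∈ T.filter (fun t => Nat.sqrt (∏ i, t i) = j),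
        1 / Real.sqrt ((∏ i, t i : ℕ) : ℝ) = 1 / (j : ℝ) := by
      intro t ht
      rw [mem_filter] at ht
      have e1 := hsq t ht.1
      rw [ht.2] at e1
      rw [← e1, Nat.cast_pow, Real.sqrt_sq hj0.le]
    rw [sum_congr rfl h2, sum_const, nsmul_eq_mul]
    unfold hq
    rw [mul_one_div]
    refine div_le_div_of_nonneg_right ?_ hj0.le
    have h3 : T.filter (fun t => Nat.sqrt (∏ i, t i) = j) ⊆
        (Tu k N0).filter (fun t => ∏ i, t i = j ^ 2) := by
      intro t ht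
      rw [mem_filter] at ht ⊢
      refine ⟨?_, ?_⟩
      · have := ht.1
        rw [hT, mem_filter] at this
        exact this.1
      · have e1 := hsq t ht.1
        rw [ht.2] at e1
        exact e1.symm
    have h4 := card_le_card h3
    have h5 := card_tu N0 k (j ^ 2) (Nat.one_le_pow _ _ hj1)
    exact le_trans (by exact_mod_cast h4) h5
  have hJs : ∀ j ∈ F, j ∈ Nat.smoothNumbers (N0 + 1) := by
    intro j hj
    rw [hF, mem_image] at hj
    obtain ⟨t, ht, rfl⟩ := hj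
    have e1 := hsq t ht
    have e2 : ∏ i, t i ∈ Nat.smoothNumbers (N0 + 1) := by
      rw [Nat.mem_smoothNumbers']
      intro p hp hpd
      obtain ⟨i, _, hi⟩ := (Prime.dvd_finset_prod_iff hp.prime _).1 hpd
      have := Nat.le_of_dvd (by have := ((hTm t ht).1 i).1; omega) hi
      have := ((hTm t ht).1 i).2
      omega
    refine Nat.mem_smoothNumbers_of_dvd e2 ?_
    exact ⟨Nat.sqrt (∏ i, t i), by rw [← sq, e1]⟩
  have h3 : ∑ j ∈ F, hq k j ≤ ∏ p ∈ (N0 + 1).primesBelow, ∑' n : ℕ, hq k (p ^ n) := by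
    rw [← sum_subtype_of_mem (fun j => hq k j) hJs]
    exact sum_le_hasSum _ (fun j _ => hq_nonneg k _) hE2
  have h4 : ∏ p ∈ (N0 + 1).primesBelow, ∑' n : ℕ, hq k (p ^ n) ≤
      ∏ p ∈ (N0 + 1).primesBelow, Real.exp ((K : ℝ) * (1 / p) + D * (1 / (p : ℝ) ^ 2)) := by
    refine prod_le_prod (fun p _ => tsum_nonneg fun i => hq_nonneg k _) fun p hp => ?_
    have hp' := (Nat.mem_primesBelow.1 hp).2
    refine (hq_tsum k hp').trans ?_
    rw [← hK, ← hD]
    have := Real.add_one_le_exp ((K : ℝ) * (1 / p) + D * (1 / (p : ℝ) ^ 2))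
    refine le_trans (le_of_eq ?_) this
    ring
  have h5 : ∏ p ∈ (N0 + 1).primesBelow, Real.exp ((K : ℝ) * (1 / p) + D * (1 / (p : ℝ) ^ 2)) ≤
      Real.exp (K * C1 + D * S) * (1 + Real.log N0) ^ K := by
    rw [← Real.exp_sum, sum_add_distrib, ← mul_sum, ← mul_sum]
    have e1 : (1 + Real.log N0) ^ K = Real.exp (K * Real.log (1 + Real.log N0)) := by
      rw [mul_comm, Real.exp_mul, Real.exp_log (by linarith), Real.rpow_natCast]
    rw [e1, ← Real.exp_add]
    apply Real.exp_le_exp.2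
    have e2 := mul_le_mul_of_nonneg_left (hC1 N0 (by omega)) (Nat.cast_nonneg (α := ℝ) K)
    have e3 : ∑ p ∈ (N0 + 1).primesBelow, 1 / (p : ℝ) ^ 2 ≤ S := by
      rw [hS]
      exact hs.sum_le_tsum _ fun n _ => by positivity
    have e4 := mul_le_mul_of_nonneg_left e3 hD0
    linarith
  have h6 : (1 + Real.log N0) ^ K ≤ c2 ^ K * Real.log N0 ^ K := by
    rw [← mul_pow]
    refine pow_le_pow_left₀ (by linarith) ?_ K
    rw [hc2, add_mul, one_mul]
    have : 1 ≤ 1 / Real.log 2 * Real.log N0 := by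
      rw [one_div, inv_mul_eq_div, le_div_iff₀ hl2]
      linarith
    linarith
  have h7 := mul_le_mul_of_nonneg_left h6 (Real.exp_pos (K * C1 + D * S)).le
  rw [← mul_assoc] at h7
  exact h1.trans (h3.trans (h4.trans (h5.trans h7)))

end

end Pool.Agent.Q208.TQ
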