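import Pool.Agent.Q255.TQ.Stm

/-!
# Project TQ, job CNT: the number of fundamental discriminants coprime to `l`
-/

set_option autoImplicit false
set_option linter.all false

namespace Pool.Agent.Q208.TQ

open Finset Filter Topology Pool.Agent.Q255.TQ Pool.Agent.H306R2.RZ
open Pool.Agent.Q122.FM (kron IsFund)

noncomputable section

/-- squarefree numbers in a class modulo `8`, coprime to `l` -/
def aa (ρ Y l : ℕ) : Finset ℕ := (sqf Y).filter (fun m => m % 8 = ρ ∧ m.Coprime l)

/-- classes modulo 8 of the odd discriminants -/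
def clA (ε : ℤ) : Finset ℕ := if ε = 1 then {1, 5} else {3, 7}

/-- classes modulo 8 of the quarter of the even discriminants -/
def clB (ε : ℤ) : Finset ℕ := if ε = 1 then {2, 6, 3, 7} else {2, 6, 1, 5}

theorem clA_sub (ε : ℤ) : clA ε ⊆ cl8 := by
  unfold clA cl8
  split_ifs <;> decide

theorem clB_sub (ε : ℤ) : clB ε ⊆ cl8 := by
  unfold clB cl8
  split_ifs <;> decide

theorem clA_card (ε : ℤ) : (clA ε).card = 2 := by
  unfold clA
  split_ifs <;> rfl

theorem clB_card (ε : ℤ) : (clB ε).card = 4 := by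
  unfold clB
  split_ifs <;> rfl

theorem clA_odd (ε : ℤ) : ∀ ρ ∈ clA ε, ¬ Even ρ := by
  unfold clA
  split_ifs <;> decide

theorem sqf_cast (n : ℕ) : Squarefree (n : ℤ) ↔ Squarefree n := Int.squarefree_natCast

theorem sqf_eps {ε : ℤ} (hε : ε = 1 ∨ ε = -1) (n : ℕ) : Squarefree (ε * (n : ℤ)) ↔ Squarefree n := by
  rcases hε with rfl | rfl
  · rw [one_mul, sqf_cast]
  · rw [neg_one_mul]
    rw [← sqf_cast]
    constructor
    · intro h x hx
      exact h x (by rw [dvd_neg]; exact hx)
    · intro h x hx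
      exact h x (by rwa [dvd_neg] at hx)

theorem fund_iff {ε : ℤ} (hε : ε = 1 ∨ ε = -1) (n : ℕ) : IsFund (ε * (n : ℤ)) ↔
    (Squarefree n ∧ n % 8 ∈ clA ε) ∨ ∃ m : ℕ, n = 4 * m ∧ Squarefree m ∧ m % 8 ∈ clB ε := by
  unfold IsFund
  constructor
  · rintro (⟨h1, h2⟩ | ⟨m, h1, h2, h3⟩)
    · left
      refine ⟨(sqf_eps hε n).1 h2, ?_⟩
      rcases hε with rfl | rfl
      · unfold clA
        rw [if_pos rfl]
        simp only [mem_insert, mem_singleton]
        omega
      · unfold clA
        rw [if_neg (by norm_num)]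
        simp only [mem_insert, mem_singleton]
        omega
    · right
      have h4 : 4 ∣ n := by
        rcases hε with rfl | rfl <;> omega
      obtain ⟨m', hm'⟩ := h4
      have hm2 : m = ε * (m' : ℤ) := by
        rcases hε with rfl | rfl
        · rw [hm'] at h1
          push_cast at h1
          omega
        · rw [hm'] at h1
          push_cast at h1
          omega
      refine ⟨m', hm', ?_, ?_⟩
      · rw [hm2] at h3
        exact (sqf_eps hε m').1 h3
      · rw [hm2] at h2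
        rcases hε with rfl | rfl
        · unfold clB
          rw [if_pos rfl]
          simp only [mem_insert, mem_singleton]
          omega
        · unfold clB
          rw [if_neg (by norm_num)]
          simp only [mem_insert, mem_singleton]
          omega
  · rintro (⟨h1, h2⟩ | ⟨m, h1, h2, h3⟩)
    · left
      refine ⟨?_, (sqf_eps hε n).2 h1⟩
      rcases hε with rfl | rfl
      · unfold clA at h2
        rw [if_pos rfl] at h2
        simp only [mem_insert, mem_singleton] at h2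
        omega
      · unfold clA at h2
        rw [if_neg (by norm_num)] at h2
        simp only [mem_insert, mem_singleton] at h2
        omega
    · right
      refine ⟨ε * (m : ℤ), ?_, ?_, (sqf_eps hε m).2 h2⟩
      · rw [h1]
        push_cast
        ring
      · rcases hε with rfl | rfl
        · unfold clB at h3
          rw [if_pos rfl] at h3
          simp only [mem_insert, mem_singleton] at h3
          omega
        · unfold clB at h3
          rw [if_neg (by norm_num)] at h3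
          simp only [mem_insert, mem_singleton] at h3
          omega

theorem cnt_card {ε : ℤ} (hε : ε = 1 ∨ ε = -1) (X l : ℕ) (hl : 1 ≤ l) :
    ((Fs ε X).filter (fun n => n.Coprime l)).card =
      ∑ ρ ∈ clA ε, (aa ρ X l).card + if Odd l then ∑ ρ ∈ clB ε, (aa ρ (X / 4) l).card else 0 := by
  classical
  have h1 : (Fs ε X).filter (fun n => n.Coprime l) =
      ((sqf X).filter (fun m => m % 8 ∈ clA ε ∧ m.Coprime l)) ∪
      ((sqf (X / 4)).filter (fun m => m % 8 ∈ clB ε ∧ (4 * m).Coprime l)).image (fun m => 4 * m) := by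
    ext n
    rw [mem_union, mem_image, mem_filter, mem_filter]
    unfold Fs sqf
    rw [mem_filter, mem_filter, mem_Icc, fund_iff hε]
    constructor
    · rintro ⟨⟨h2, h3 | ⟨m, hm, h4, h5⟩⟩, h6⟩
      · left
        exact ⟨⟨h2, h3.1⟩, h3.2, h6⟩
      · right
        refine ⟨m, ?_, hm.symm⟩
        rw [mem_filter, mem_filter, mem_Icc]
        refine ⟨⟨⟨?_, ?_⟩, h4⟩, h5, ?_⟩
        · omega
        · omega
        · rw [← hm]
          exact h6
    · rintro (⟨⟨h2, h3⟩, h4, h5⟩ | ⟨m, h2, h3⟩)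
      · exact ⟨⟨h2, Or.inl ⟨h3, h4⟩⟩, h5⟩
      · rw [mem_filter, mem_filter, mem_Icc] at h2
        refine ⟨⟨⟨?_, ?_⟩, Or.inr ⟨m, h3.symm, h2.1.2, h2.2.1⟩⟩, ?_⟩
        · omega
        · omega
        · rw [← h3]
          exact h2.2.2
  have h2 : Disjoint ((sqf X).filter (fun m => m % 8 ∈ clA ε ∧ m.Coprime l))
      (((sqf (X / 4)).filter (fun m => m % 8 ∈ clB ε ∧ (4 * m).Coprime l)).image (fun m => 4 * m)) := by
    rw [disjoint_left]
    intro n hn hn2
    rw [mem_filter] at hn
    rw [mem_image] at hn2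
    obtain ⟨m, _, hm⟩ := hn2
    have := clA_odd ε _ hn.2.1
    apply this
    rw [← hm]
    rw [Nat.even_iff]
    omega
  rw [h1, card_union_of_disjoint h2]
  congr 1
  · rw [card_eq_sum_card_fiberwise (f := fun m => m % 8) (t := clA ε)
      (fun m hm => by
        rw [mem_coe, mem_filter] at hm
        exact hm.2.1)]
    refine sum_congr rfl fun ρ hρ => ?_
    unfold aa
    congr 1
    ext m
    rw [mem_filter, mem_filter, mem_filter]
    constructor
    · rintro ⟨⟨h3, h4, h5⟩, h6⟩
      exact ⟨h3, h6, h5⟩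
    · rintro ⟨h3, h4, h5⟩
      exact ⟨⟨h3, by rw [h4]; exact hρ, h5⟩, h4⟩
  · rw [card_image_of_injective _ (fun a b h => by
      have : 4 * a = 4 * b := h
      omega)]
    by_cases ho : Odd l
    · rw [if_pos ho]
      have h4l : Nat.Coprime 4 l := by
        have : Nat.Coprime 2 l := Nat.coprime_two_left.2 ho
        exact Nat.Coprime.pow_left 2 this
      rw [card_eq_sum_card_fiberwise (f := fun m => m % 8) (t := clB ε)
        (fun m hm => by
          rw [mem_coe, mem_filter] at hm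
          exact hm.2.1)]
      refine sum_congr rfl fun ρ hρ => ?_
      unfold aa
      congr 1
      ext m
      rw [mem_filter, mem_filter, mem_filter]
      constructor
      · rintro ⟨⟨h3, h4, h5⟩, h6⟩
        exact ⟨h3, h6, Nat.Coprime.coprime_mul_left h5⟩
      · rintro ⟨h3, h4, h5⟩
        exact ⟨⟨h3, by rw [h4]; exact hρ, Nat.Coprime.mul_left h4l h5⟩, h4⟩
    · rw [if_neg ho, card_eq_zero, filter_false_of_mem]
      rintro m _ ⟨_, h3⟩
      have h4 : Nat.Coprime 4 l := Nat.Coprime.coprime_mul_right h3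
      have h5 : Nat.Coprime 2 l := Nat.Coprime.coprime_dvd_left (by norm_num) h4
      exact ho (Nat.coprime_two_left.1 h5)

theorem h_nonneg (l : ℕ) : 0 ≤ h l := prod_nonneg fun p _ => by positivity

theorem h_le_one (l : ℕ) : h l ≤ 1 := by
  refine prod_le_one (fun p _ => by positivity) fun p _ => ?_
  rw [div_le_one (by positivity)]
  linarith

theorem cnt (hC : S_CL8) : S_CNT := by
  obtain ⟨C, hC0, hC⟩ := hC
  refine ⟨6 * C + 1, by positivity, fun ε hε X l hl => ?_⟩
  have hd : (1 : ℝ) ≤ l.divisors.card := by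
    have : 0 < l.divisors.card := card_pos.2 ⟨1, Nat.one_mem_divisors.2 (by omega)⟩
    exact_mod_cast this
  have hsX : 0 ≤ Real.sqrt X := Real.sqrt_nonneg _
  have hh0 := h_nonneg l
  have hh1 := h_le_one l
  have hpi : (9 : ℝ) < Real.pi ^ 2 := by
    have := Real.pi_gt_three
    nlinarith
  rw [cnt_card hε X l hl]
  have hA : ∀ ρ ∈ clA ε, |((aa ρ X l).card : ℝ) - X / Real.pi ^ 2 * (if Odd l then h l else 3 / 2 * h l)| ≤
      C * l.divisors.card * Real.sqrt X := by
    intro ρ hρ
    exact hC ρ (clA_sub ε hρ) X l hl (fun he => absurd he (clA_odd ε ρ hρ))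
  have hA2 : |((∑ ρ ∈ clA ε, (aa ρ X l).card : ℕ) : ℝ) -
      2 * (X / Real.pi ^ 2 * (if Odd l then h l else 3 / 2 * h l))| ≤
      2 * (C * l.divisors.card * Real.sqrt X) := by
    have e1 : ((∑ ρ ∈ clA ε, (aa ρ X l).card : ℕ) : ℝ) -
      2 * (X / Real.pi ^ 2 * (if Odd l then h l else 3 / 2 * h l)) =
      ∑ ρ ∈ clA ε, (((aa ρ X l).card : ℝ) - X / Real.pi ^ 2 * (if Odd l then h l else 3 / 2 * h l)) := by
      rw [sum_sub_distrib, sum_const, clA_card]
      push_cast
      ring
    rw [e1]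
    refine (abs_sum_le_sum_abs _ _).trans ((sum_le_sum hA).trans (le_of_eq ?_))
    rw [sum_const, clA_card]
    push_cast
    ring
  by_cases ho : Odd l
  · rw [if_pos ho] at hA2 ⊢
    have hB : ∀ ρ ∈ clB ε, |((aa ρ (X / 4) l).card : ℝ) - ((X / 4 : ℕ) : ℝ) / Real.pi ^ 2 * h l| ≤
        C * l.divisors.card * Real.sqrt X := by
      intro ρ hρ
      have h1 := hC ρ (clB_sub ε hρ) (X / 4) l hl (fun _ => ho)
      rw [if_pos ho] at h1
      refine h1.trans ?_
      refine mul_le_mul_of_nonneg_left (Real.sqrt_le_sqrt ?_) (by positivity)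
      exact_mod_cast Nat.div_le_self X 4
    have hB2 : |((∑ ρ ∈ clB ε, (aa ρ (X / 4) l).card : ℕ) : ℝ) -
        4 * (((X / 4 : ℕ) : ℝ) / Real.pi ^ 2 * h l)| ≤
        4 * (C * l.divisors.card * Real.sqrt X) := by
      have e1 : ((∑ ρ ∈ clB ε, (aa ρ (X / 4) l).card : ℕ) : ℝ) -
        4 * (((X / 4 : ℕ) : ℝ) / Real.pi ^ 2 * h l) =
        ∑ ρ ∈ clB ε, (((aa ρ (X / 4) l).card : ℝ) - ((X / 4 : ℕ) : ℝ) / Real.pi ^ 2 * h l) := by
        rw [sum_sub_distrib, sum_const, clB_card]
        push_cast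
        ring
      rw [e1]
      refine (abs_sum_le_sum_abs _ _).trans ((sum_le_sum hB).trans (le_of_eq ?_))
      rw [sum_const, clB_card]
      push_cast
      ring
    have hq : |4 * ((X / 4 : ℕ) : ℝ) - X| ≤ 3 := by
      have h1 : 4 * (X / 4) ≤ X := Nat.mul_div_le X 4
      have h2 : X ≤ 4 * (X / 4) + 3 := by omega
      have h1' : (4 : ℝ) * ((X / 4 : ℕ) : ℝ) ≤ X := by exact_mod_cast h1
      have h2' : (X : ℝ) ≤ 4 * ((X / 4 : ℕ) : ℝ) + 3 := by exact_mod_cast h2
      rw [abs_le]
      constructor <;> linarith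
    have hq2 : |(4 * ((X / 4 : ℕ) : ℝ) - X) * (h l / Real.pi ^ 2)| ≤ 1 := by
      rw [abs_mul, abs_of_nonneg (by positivity : 0 ≤ h l / Real.pi ^ 2)]
      have h3 : h l / Real.pi ^ 2 ≤ 1 / 9 := by
        rw [div_le_div_iff₀ (by positivity) (by norm_num)]
        linarith
      calc |4 * ((X / 4 : ℕ) : ℝ) - X| * (h l / Real.pi ^ 2) ≤ 3 * (1 / 9) :=
            mul_le_mul hq h3 (by positivity) (by norm_num)
        _ ≤ 1 := by norm_num
    have e2 : ((∑ ρ ∈ clA ε, (aa ρ X l).card + ∑ ρ ∈ clB ε, (aa ρ (X / 4) l).card : ℕ) : ℝ) -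
        3 / Real.pi ^ 2 * X * h l =
        (((∑ ρ ∈ clA ε, (aa ρ X l).card : ℕ) : ℝ) - 2 * (X / Real.pi ^ 2 * h l)) +
        (((∑ ρ ∈ clB ε, (aa ρ (X / 4) l).card : ℕ) : ℝ) - 4 * (((X / 4 : ℕ) : ℝ) / Real.pi ^ 2 * h l)) +
        (4 * ((X / 4 : ℕ) : ℝ) - X) * (h l / Real.pi ^ 2) := by
      push_cast
      ring
    rw [e2]
    refine (abs_add_three _ _ _).trans ?_
    have e3 : 0 ≤ C * (l.divisors.card : ℝ) := by positivity
    nlinarith [mul_nonneg e3 hsX, mul_nonneg (by linarith : (0 : ℝ) ≤ (l.divisors.card : ℝ)) hsX]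
  · rw [if_neg ho] at hA2 ⊢
    rw [add_zero]
    have e2 : 2 * (X / Real.pi ^ 2 * (3 / 2 * h l)) = 3 / Real.pi ^ 2 * X * h l := by ring
    rw [e2] at hA2
    refine hA2.trans ?_
    have e3 : 0 ≤ C * (l.divisors.card : ℝ) := by positivity
    nlinarith [mul_nonneg e3 hsX, mul_nonneg (by linarith : (0 : ℝ) ≤ (l.divisors.card : ℝ)) hsX]

end

end Pool.Agent.Q208.TQ
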