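import Pool.Agent.Q255.TQ.Stm

/-!
# Project TQ, job MMB: the order of magnitude of the main term
-/

set_option autoImplicit false
set_option linter.all false

namespace Pool.Agent.Q208.TQ

open Finset Filter Topology MeasureTheory Pool.Agent.Q255.TQ

noncomputable section

theorem mh_nonneg (l : ℕ) : 0 ≤ h l := prod_nonneg fun p _ => by positivity

theorem mh_le_one (l : ℕ) : h l ≤ 1 := by
  refine prod_le_one (fun p _ => by positivity) fun p _ => ?_
  rw [div_le_one (by positivity)]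
  linarith

theorem par_01 (ε : ℤ) : par ε = 0 ∨ par ε = 1 := by
  unfold par
  split_ifs
  · exact Or.inl rfl
  · exact Or.inr rfl

/-- the integrand -/
def ff (ε : ℤ) (k : ℕ) (t : Fin k → ℕ) (x : ℝ) : ℝ := ∏ i, V (par ε) ((t i : ℝ) / Real.sqrt x)

theorem ff_nonneg (hV : S_VP) (ε : ℤ) (k : ℕ) (t : Fin k → ℕ) (ht : ∀ i, 1 ≤ t i) (x : ℝ) (hx : 0 < x) :
    0 ≤ ff ε k t x := by
  refine prod_nonneg fun i _ => ?_
  have h1 : (0 : ℝ) < t i := by exact_mod_cast ht i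
  exact ((hV _ (par_01 ε)).1 _ (div_pos h1 (Real.sqrt_pos.2 hx))).1.le

theorem ff_le (hV : S_VP) (ε : ℤ) (k : ℕ) (t : Fin k → ℕ) (ht : ∀ i, 1 ≤ t i) (x : ℝ) (hx : 0 < x) :
    ff ε k t x ≤ 2 ^ k := by
  have h2 : ∏ i : Fin k, V (par ε) ((t i : ℝ) / Real.sqrt x) ≤ ∏ _i : Fin k, (2 : ℝ) := by
    refine prod_le_prod (fun i _ => ?_) fun i _ => ?_
    · have h1 : (0 : ℝ) < t i := by exact_mod_cast ht i
      exact ((hV _ (par_01 ε)).1 _ (div_pos h1 (Real.sqrt_pos.2 hx))).1.le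
    · have h1 : (0 : ℝ) < t i := by exact_mod_cast ht i
      exact ((hV _ (par_01 ε)).1 _ (div_pos h1 (Real.sqrt_pos.2 hx))).2
  rw [prod_const, card_univ, Fintype.card_fin] at h2
  exact h2

theorem ff_mono (hV : S_VP) (ε : ℤ) (k : ℕ) (t : Fin k → ℕ) (ht : ∀ i, 1 ≤ t i) :
    MonotoneOn (ff ε k t) (Set.Ioi 0) := by
  intro x hx y hy hxy
  rw [Set.mem_Ioi] at hx hy
  refine prod_le_prod (fun i _ => ?_) fun i _ => ?_
  · have h1 : (0 : ℝ) < t i := by exact_mod_cast ht i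
    exact ((hV _ (par_01 ε)).1 _ (div_pos h1 (Real.sqrt_pos.2 hx))).1.le
  · have h1 : (0 : ℝ) < t i := by exact_mod_cast ht i
    refine (hV _ (par_01 ε)).2.1 _ _ (div_pos h1 (Real.sqrt_pos.2 hy)) ?_
    exact div_le_div_of_nonneg_left h1.le (Real.sqrt_pos.2 hx) (Real.sqrt_le_sqrt hxy)

theorem ff_int (hV : S_VP) (ε : ℤ) (k : ℕ) (t : Fin k → ℕ) (ht : ∀ i, 1 ≤ t i) (X : ℝ) :
    IntegrableOn (ff ε k t) (Set.Ioc 0 X) := by
  have hm : AEMeasurable (ff ε k t) (volume.restrict (Set.Ioc 0 X)) :=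
    aemeasurable_restrict_of_monotoneOn measurableSet_Ioc
      ((ff_mono hV ε k t ht).mono fun x hx => hx.1)
  refine Integrable.of_bound hm.aestronglyMeasurable (2 ^ k) ?_
  refine (ae_restrict_iff' measurableSet_Ioc).2 (Eventually.of_forall fun x hx => ?_)
  rw [Real.norm_eq_abs, abs_of_nonneg (ff_nonneg hV ε k t ht x hx.1)]
  exact ff_le hV ε k t ht x hx.1

theorem int_up (hV : S_VP) (ε : ℤ) (k : ℕ) (t : Fin k → ℕ) (ht : ∀ i, 1 ≤ t i) (X : ℕ) :
    ∫ x in Set.Ioc (0 : ℝ) X, ff ε k t x ≤ 2 ^ k * X := by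
  have h1 : ∫ x in Set.Ioc (0 : ℝ) X, ff ε k t x ≤ ∫ x in Set.Ioc (0 : ℝ) X, (2 : ℝ) ^ k :=
    setIntegral_mono_on (ff_int hV ε k t ht X) (by simp) measurableSet_Ioc
      fun x hx => ff_le hV ε k t ht x hx.1
  refine h1.trans (le_of_eq ?_)
  rw [setIntegral_const]
  simp
  ring

theorem int_nonneg (hV : S_VP) (ε : ℤ) (k : ℕ) (t : Fin k → ℕ) (ht : ∀ i, 1 ≤ t i) (X : ℕ) :
    0 ≤ ∫ x in Set.Ioc (0 : ℝ) X, ff ε k t x :=
  setIntegral_nonneg measurableSet_Ioc fun x hx => ff_nonneg hV ε k t ht x hx.1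

theorem int_low (hV : S_VP) (ε : ℤ) (k : ℕ) (t : Fin k → ℕ) (X : ℕ) (hX : 1 ≤ X)
    (ht : ∀ i, 1 ≤ t i ∧ 4 * (t i) ^ 2 ≤ X) (v : ℝ) (hv0 : 0 ≤ v) (hv : v ≤ V (par ε) 1) :
    v ^ k * (X / 2) ≤ ∫ x in Set.Ioc (0 : ℝ) X, ff ε k t x := by
  have hX0 : (0 : ℝ) < X := by exact_mod_cast hX
  have h1 : ∫ x in Set.Ioc ((X : ℝ) / 2) X, v ^ k ≤ ∫ x in Set.Ioc ((X : ℝ) / 2) X, ff ε k t x := by
    refine setIntegral_mono_on (by simp) ((ff_int hV ε k t (fun i => (ht i).1) X).mono_set ?_)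
      measurableSet_Ioc fun x hx => ?_
    · exact Set.Ioc_subset_Ioc_left (by positivity)
    · have hx0 : 0 < x := lt_trans (by positivity) hx.1
      have h2 : ∏ _i : Fin k, v ≤ ∏ i : Fin k, V (par ε) ((t i : ℝ) / Real.sqrt x) := by
        refine prod_le_prod (fun i _ => hv0) fun i _ => ?_
        have h1 : (0 : ℝ) < t i := by exact_mod_cast (ht i).1
        refine hv.trans ((hV _ (par_01 ε)).2.1 _ _ (div_pos h1 (Real.sqrt_pos.2 hx0)) ?_)
        rw [div_le_one (Real.sqrt_pos.2 hx0)]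
        refine Real.le_sqrt_of_sq_le ?_
        have h3 : (4 : ℝ) * (t i : ℝ) ^ 2 ≤ X := by exact_mod_cast (ht i).2
        have h4 : (0 : ℝ) ≤ (t i : ℝ) ^ 2 := by positivity
        linarith [hx.1]
      rw [prod_const, card_univ, Fintype.card_fin] at h2
      exact h2
  have h2 : ∫ x in Set.Ioc ((X : ℝ) / 2) X, ff ε k t x ≤ ∫ x in Set.Ioc (0 : ℝ) X, ff ε k t x := by
    refine setIntegral_mono_set (ff_int hV ε k t (fun i => (ht i).1) X) ?_ ?_
    · refine (ae_restrict_iff' measurableSet_Ioc).2 (Eventually.of_forall fun x hx => ?_)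
      exact ff_nonneg hV ε k t (fun i => (ht i).1) x hx.1
    · exact (Set.Ioc_subset_Ioc_left (by positivity)).eventuallyLE
  refine le_trans (le_of_eq ?_) (h1.trans h2)
  rw [setIntegral_const]
  have h3 : volume.real (Set.Ioc ((X : ℝ) / 2) X) = X / 2 := by
    rw [Measure.real, Real.volume_Ioc, ENNReal.toReal_ofReal (by linarith)]
    ring
  rw [h3, smul_eq_mul]
  ring

theorem tu_mem {k N : ℕ} {t : Fin k → ℕ} (ht : t ∈ (Tu k N).filter (fun t => IsSquare (∏ i, t i))) :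
    ∀ i, 1 ≤ t i ∧ t i ≤ N := by
  rw [mem_filter] at ht
  unfold Tu at ht
  rw [Fintype.mem_piFinset] at ht
  exact fun i => mem_Icc.1 (ht.1 i)

theorem mmb (hU : S_BBU) (hL : S_BBL) (hV : S_VP) : S_MMB := by
  intro k hk
  obtain ⟨C, hC0, hC⟩ := hU k hk
  obtain ⟨c, hc0, hc⟩ := hL k hk
  obtain ⟨v, hv⟩ : ∃ v : ℝ, v = min (V 0 1) (V 1 1) := ⟨_, rfl⟩
  have hv0 : 0 < v := by
    rw [hv]
    exact lt_min ((hV 0 (Or.inl rfl)).1 1 one_pos).1 ((hV 1 (Or.inr rfl)).1 1 one_pos).1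
  have hvp : ∀ ε : ℤ, v ≤ V (par ε) 1 := by
    intro ε
    rcases par_01 ε with h1 | h1
    · rw [h1, hv]
      exact min_le_left _ _
    · rw [h1, hv]
      exact min_le_right _ _
  have hpi : 0 < 3 / Real.pi ^ 2 := by positivity
  obtain ⟨K, hK⟩ : ∃ K : ℕ, K = k * (k + 1) / 2 := ⟨_, rfl⟩
  rw [← hK] at hC hc ⊢
  refine ⟨3 / Real.pi ^ 2 * (v ^ k / 2) * (c * (1 / 6) ^ K), 3 / Real.pi ^ 2 * 2 ^ k * C, by positivity,
    by positivity, fun ε hε X hX => ⟨?_, ?_⟩⟩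
  · -- lower bound
    have hX0 : (0 : ℝ) < X := by exact_mod_cast (by omega : 0 < X)
    obtain ⟨M, hM⟩ : ∃ M : ℕ, M = Nat.sqrt X / 2 := ⟨_, rfl⟩
    have hs4 : 4 ≤ Nat.sqrt X := by
      rw [Nat.le_sqrt]
      omega
    have hM2 : 2 ≤ M := by omega
    have hM3 : 4 * M ^ 2 ≤ X := by
      have h1 : 2 * M ≤ Nat.sqrt X := by omega
      have h2 := Nat.sqrt_le' X
      calc 4 * M ^ 2 = (2 * M) ^ 2 := by ring
        _ ≤ (Nat.sqrt X) ^ 2 := Nat.pow_le_pow_left h1 2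
        _ ≤ X := h2
    have hMX : M ≤ X := by nlinarith
    have hM6 : X ≤ M ^ 6 := by
      have h1 : Nat.sqrt X ≤ 2 * M + 1 := by omega
      have h2 := Nat.lt_succ_sqrt' X
      have h3 : Nat.succ (Nat.sqrt X) ≤ 3 * M := by omega
      have h4 : X ≤ (3 * M) ^ 2 := h2.le.trans (Nat.pow_le_pow_left h3 2)
      have h5 : 2 ^ 4 ≤ M ^ 4 := Nat.pow_le_pow_left hM2 4
      calc X ≤ (3 * M) ^ 2 := h4
        _ = 9 * M ^ 2 := by ring
        _ ≤ M ^ 4 * M ^ 2 := Nat.mul_le_mul_right _ (by omega)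
        _ = M ^ 6 := by ring
    have hlog : 1 / 6 * Real.log X ≤ Real.log M := by
      have h1 : Real.log X ≤ Real.log ((M : ℝ) ^ 6) :=
        Real.log_le_log hX0 (by exact_mod_cast hM6)
      rw [Real.log_pow] at h1
      push_cast at h1
      linarith
    have hlX : 0 ≤ Real.log X := Real.log_nonneg (by exact_mod_cast (by omega : 1 ≤ X))
    have h1 := hc M hM2
    have h2 : (1 / 6 * Real.log X) ^ K ≤ Real.log M ^ K := pow_le_pow_left₀ (by positivity) hlog K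
    rw [mul_pow] at h2
    have h3 : c * ((1 / 6) ^ K * Real.log X ^ K) ≤ BB k M :=
      (mul_le_mul_of_nonneg_left h2 hc0.le).trans h1
    have h4 : v ^ k * (X / 2) * BB k M ≤ ∑ t ∈ (Tu k X).filter (fun t => IsSquare (∏ i, t i)),
        h (∏ i, t i) / Real.sqrt ((∏ i, t i : ℕ) : ℝ) * ∫ x in Set.Ioc (0 : ℝ) X, ff ε k t x := by
      have hsub : (Tu k M).filter (fun t => IsSquare (∏ i, t i)) ⊆
          (Tu k X).filter (fun t => IsSquare (∏ i, t i)) := by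
        intro t ht
        have h5 := tu_mem ht
        rw [mem_filter] at ht ⊢
        refine ⟨?_, ht.2⟩
        unfold Tu
        rw [Fintype.mem_piFinset]
        intro i
        rw [mem_Icc]
        exact ⟨(h5 i).1, (h5 i).2.trans hMX⟩
      refine le_trans ?_ (sum_le_sum_of_subset_of_nonneg hsub fun t ht _ => ?_)
      · unfold BB
        rw [mul_sum]
        refine sum_le_sum fun t ht => ?_
        have h5 := tu_mem ht
        rw [mul_comm]
        refine mul_le_mul_of_nonneg_left ?_ (div_nonneg (mh_nonneg _) (Real.sqrt_nonneg _))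
        refine int_low hV ε k t X (by omega) (fun i => ⟨(h5 i).1, ?_⟩) v hv0.le (hvp ε)
        exact (Nat.mul_le_mul_left 4 (Nat.pow_le_pow_left (h5 i).2 2)).trans hM3
      · have h5 := tu_mem ht
        exact mul_nonneg (div_nonneg (mh_nonneg _) (Real.sqrt_nonneg _))
          (int_nonneg hV ε k t (fun i => (h5 i).1) X)
    have h5 := mul_le_mul_of_nonneg_left h3 (by positivity : 0 ≤ v ^ k * ((X : ℝ) / 2))
    have h6 := mul_le_mul_of_nonneg_left (h5.trans h4) hpi.le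
    refine le_trans (le_of_eq ?_) h6
    ring
  · -- upper bound
    have hX0 : (0 : ℝ) < X := by exact_mod_cast (by omega : 0 < X)
    have h1 := hC X (by omega)
    have h4 : ∑ t ∈ (Tu k X).filter (fun t => IsSquare (∏ i, t i)),
        h (∏ i, t i) / Real.sqrt ((∏ i, t i : ℕ) : ℝ) * ∫ x in Set.Ioc (0 : ℝ) X, ff ε k t x ≤
        2 ^ k * X * ∑ t ∈ (Tu k X).filter (fun t => IsSquare (∏ i, t i)),
          1 / Real.sqrt ((∏ i, t i : ℕ) : ℝ) := by
      rw [mul_sum]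
      refine sum_le_sum fun t ht => ?_
      have h5 := tu_mem ht
      rw [mul_comm]
      refine mul_le_mul (int_up hV ε k t (fun i => (h5 i).1) X) ?_
        (div_nonneg (mh_nonneg _) (Real.sqrt_nonneg _)) (by positivity)
      exact div_le_div_of_nonneg_right (mh_le_one _) (Real.sqrt_nonneg _)
    have h5 := mul_le_mul_of_nonneg_left h1 (by positivity : 0 ≤ (2 : ℝ) ^ k * X)
    have h6 := mul_le_mul_of_nonneg_left (h4.trans h5) hpi.le
    refine le_trans h6 (le_of_eq ?_)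
    ring

end

end Pool.Agent.Q208.TQ
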