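import Pool.Agent.Q255.TQ.Stm

/-!
# Project TQ, job SUM: the sum over `s`
-/

set_option autoImplicit false
set_option linter.all false

namespace Pool.Agent.Q208.TQ

open Finset Filter Topology Pool.Agent.Q255.TQ
open Pool.Agent.H306R2.RZ (sqf osf js)

noncomputable section

theorem log2_le (x : ℕ) (hx : 1 ≤ x) (δ : ℝ) (hδ : 0 < δ) :
    (Nat.log 2 x : ℝ) ≤ (x : ℝ) ^ δ / (δ * Real.log 2) := by
  have hl2 : 0 < Real.log 2 := Real.log_pos (by norm_num)
  have hx0 : (0 : ℝ) < x := by exact_mod_cast hx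
  have h1 : ((2 : ℝ)) ^ (Nat.log 2 x) ≤ x := by exact_mod_cast Nat.pow_log_le_self 2 (by omega)
  have h2 := Real.log_le_log (by positivity) h1
  rw [Real.log_pow] at h2
  have h3 := Real.log_le_rpow_div hx0.le hδ
  rw [le_div_iff₀ (by positivity)]
  have h4 : (Nat.log 2 x : ℝ) * Real.log 2 * δ ≤ Real.log x * δ :=
    mul_le_mul_of_nonneg_right h2 hδ.le
  have h5 : Real.log x * δ ≤ (x : ℝ) ^ δ := by
    rw [le_div_iff₀ hδ] at h3
    exact h3
  linarith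

/-- a weighted sum from the mean square -/
theorem dyad (N : ℕ) (hN : 1 ≤ N) (G : ℕ → ℝ) (hG : ∀ s, 0 ≤ G s) (B : ℝ)
    (hB : ∀ S : ℕ, 1 ≤ S → S ≤ 2 * N → ∑ s ∈ (osf S).filter (fun s => 3 ≤ s), G s ≤ B * S) :
    ∑ s ∈ (osf N).filter (fun s => 3 ≤ s), G s / s ≤ (Nat.log 2 N + 1) * (2 * B) := by
  have h1 : ∀ s ∈ (osf N).filter (fun s => 3 ≤ s), G s / s ≤
      ∑ j ∈ range (Nat.log 2 N + 1), (1 / 2 : ℝ) ^ j * (if s ≤ 2 ^ (j + 1) then G s else 0) := by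
    intro s hs
    rw [mem_filter] at hs
    unfold osf at hs
    rw [mem_filter, mem_Icc] at hs
    have hs0 : (0 : ℝ) < s := by exact_mod_cast hs.1.1.1
    have h2 : Nat.log 2 s ∈ range (Nat.log 2 N + 1) := by
      rw [mem_range]
      have := Nat.log_mono_right (b := 2) hs.1.1.2
      omega
    have h3 : (1 / 2 : ℝ) ^ (Nat.log 2 s) * (if s ≤ 2 ^ (Nat.log 2 s + 1) then G s else 0) ≤
        ∑ j ∈ range (Nat.log 2 N + 1), (1 / 2 : ℝ) ^ j * (if s ≤ 2 ^ (j + 1) then G s else 0) :=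
      single_le_sum (f := fun j => (1 / 2 : ℝ) ^ j * (if s ≤ 2 ^ (j + 1) then G s else 0))
        (fun j _ => by
          have : 0 ≤ (if s ≤ 2 ^ (j + 1) then G s else 0) := by
            split_ifs
            · exact hG s
            · exact le_rfl
          positivity) h2
    refine le_trans ?_ h3
    rw [if_pos (Nat.lt_pow_succ_log_self (by norm_num) s).le]
    rw [div_eq_mul_one_div, mul_comm]
    refine mul_le_mul_of_nonneg_right ?_ (hG s)
    rw [one_div_pow]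
    refine one_div_le_one_div_of_le (by positivity) ?_
    exact_mod_cast Nat.pow_log_le_self 2 (by omega)
  refine (sum_le_sum h1).trans ?_
  rw [sum_comm]
  have h4 : ∀ j ∈ range (Nat.log 2 N + 1),
      ∑ s ∈ (osf N).filter (fun s => 3 ≤ s), (1 / 2 : ℝ) ^ j * (if s ≤ 2 ^ (j + 1) then G s else 0) ≤
        2 * B := by
    intro j hj
    rw [mem_range] at hj
    rw [← mul_sum, ← sum_filter]
    have h5 : ((osf N).filter (fun s => 3 ≤ s)).filter (fun s => s ≤ 2 ^ (j + 1)) ⊆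
        (osf (2 ^ (j + 1))).filter (fun s => 3 ≤ s) := by
      intro s hs
      rw [mem_filter, mem_filter] at hs
      rw [mem_filter]
      unfold osf at hs ⊢
      rw [mem_filter, mem_Icc] at hs ⊢
      exact ⟨⟨⟨hs.1.1.1.1, hs.2⟩, hs.1.1.2⟩, hs.1.2⟩
    have h6 : 2 ^ (j + 1) ≤ 2 * N := by
      rw [pow_succ, mul_comm]
      have h7 : 2 ^ j ≤ 2 ^ (Nat.log 2 N) := Nat.pow_le_pow_right (by norm_num) (by omega)
      have h8 := Nat.pow_log_le_self 2 (show N ≠ 0 by omega)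
      omega
    have h9 := hB (2 ^ (j + 1)) Nat.one_le_two_pow h6
    have h10 := (sum_le_sum_of_subset_of_nonneg h5 fun s _ _ => hG s).trans h9
    have h11 := mul_le_mul_of_nonneg_left h10 (by positivity : (0 : ℝ) ≤ (1 / 2) ^ j)
    refine h11.trans (le_of_eq ?_)
    push_cast
    rw [pow_succ]
    have h12 : (1 / 2 : ℝ) ^ j * 2 ^ j = 1 := by
      rw [← mul_pow]
      norm_num
    calc (1 / 2 : ℝ) ^ j * (B * (2 ^ j * 2)) = ((1 / 2 : ℝ) ^ j * 2 ^ j) * (2 * B) := by ring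
      _ = 2 * B := by rw [h12, one_mul]
  refine (sum_le_sum h4).trans (le_of_eq ?_)
  rw [sum_const, card_range, nsmul_eq_mul]
  push_cast
  ring

theorem op_facts {s : ℕ} (hs : Squarefree s) (h3 : 3 ≤ s) :
    Odd (op s) ∧ Squarefree (op s) ∧ 3 ≤ op s ∧ op s ≤ s ∧ (s = op s ∨ s = 2 * op s) := by
  unfold op
  by_cases ho : Odd s
  · rw [if_pos ho]
    exact ⟨ho, hs, h3, le_rfl, Or.inl rfl⟩
  · rw [if_neg ho]
    obtain ⟨m, hm⟩ := Nat.not_odd_iff_even.1 ho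
    have hm2 : s = 2 * m := by omega
    have e1 : s / 2 = m := by omega
    rw [e1]
    have hsm : Squarefree m := hs.squarefree_of_dvd ⟨2, by omega⟩
    have hom : Odd m := by
      rw [← Nat.not_even_iff_odd]
      intro he
      obtain ⟨r, hr⟩ := he
      have h4 : 2 * 2 ∣ s := ⟨r, by omega⟩
      have := hs 2 h4
      rw [Nat.isUnit_iff] at this
      omega
    have h5 : 3 ≤ m := by
      obtain ⟨r, hr⟩ := hom
      omega
    exact ⟨hom, hsm, h5, by omega, Or.inr hm2⟩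

/-- passage to the odd parts -/
theorem to_odd (N : ℕ) (G : ℕ → ℝ) (hG : ∀ s, 0 ≤ G s) :
    ∑ s ∈ (sqf N).filter (fun s => 3 ≤ s), G (op s) / s ≤
      2 * ∑ s ∈ (osf N).filter (fun s => 3 ≤ s), G s / s := by
  have hmem : ∀ s ∈ (sqf N).filter (fun s => 3 ≤ s), (1 ≤ s ∧ s ≤ N) ∧ Squarefree s ∧ 3 ≤ s := by
    intro s hs
    rw [mem_filter] at hs
    unfold sqf at hs
    rw [mem_filter, mem_Icc] at hs
    exact ⟨hs.1.1, hs.1.2, hs.2⟩
  rw [← sum_fiberwise_of_maps_to (s := (sqf N).filter (fun s => 3 ≤ s))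
    (t := (osf N).filter (fun s => 3 ≤ s)) (g := op) (fun s hs => by
      obtain ⟨h1, h2, h3⟩ := hmem s hs
      obtain ⟨h4, h5, h6, h7, h8⟩ := op_facts h2 h3
      rw [mem_filter]
      unfold osf
      rw [mem_filter, mem_Icc]
      exact ⟨⟨⟨by omega, by omega⟩, h4, h5⟩, h6⟩), mul_sum]
  refine sum_le_sum fun r hr => ?_
  rw [mem_filter] at hr
  have hr0 : (0 : ℝ) < r := by exact_mod_cast (by omega : 0 < r)
  have h1 : ∀ s ∈ ((sqf N).filter (fun s => 3 ≤ s)).filter (fun s => op s = r),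
      G (op s) / s ≤ G r / r := by
    intro s hs
    rw [mem_filter] at hs
    obtain ⟨h1, h2, h3⟩ := hmem s hs.1
    obtain ⟨h4, h5, h6, h7, h8⟩ := op_facts h2 h3
    rw [hs.2] at h7 ⊢
    exact div_le_div_of_nonneg_left (hG r) hr0 (by exact_mod_cast h7)
  have h2 : ((sqf N).filter (fun s => 3 ≤ s)).filter (fun s => op s = r) ⊆ {r, 2 * r} := by
    intro s hs
    rw [mem_filter] at hs
    obtain ⟨h1, h2, h3⟩ := hmem s hs.1
    obtain ⟨h4, h5, h6, h7, h8⟩ := op_facts h2 h3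
    rw [hs.2] at h8
    rw [mem_insert, mem_singleton]
    exact h8
  have h3 : (((sqf N).filter (fun s => 3 ≤ s)).filter (fun s => op s = r)).card ≤ 2 :=
    (card_le_card h2).trans card_le_two
  refine (sum_le_card_nsmul _ _ _ h1).trans ?_
  rw [nsmul_eq_mul]
  refine mul_le_mul_of_nonneg_right (by exact_mod_cast h3) (div_nonneg (hG r) hr0.le)

theorem cl8_card : cl8.card = 6 := rfl

theorem kk_sq (hR : S_RED) (ε : ℤ) (hε : ε = 1 ∨ ε = -1) (X s l : ℕ) (hs : Squarefree s) (hl : 1 ≤ l) :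
    KK ε X s l ^ 2 ≤ 12 * ∑ ρ ∈ cl8, (TT ρ X (op s) l ^ 2 + TT ρ (X / 4) (op s) l ^ 2) := by
  have h1 := hR ε hε X s l hs hl
  have h2 : KK ε X s l ^ 2 ≤
      (∑ ρ ∈ cl8, (|TT ρ X (op s) l| + |TT ρ (X / 4) (op s) l|)) ^ 2 := by
    rw [← sq_abs]
    exact pow_le_pow_left₀ (abs_nonneg _) h1 2
  have h3 : (∑ ρ ∈ cl8, (|TT ρ X (op s) l| + |TT ρ (X / 4) (op s) l|)) ^ 2 ≤
      6 * ∑ ρ ∈ cl8, (|TT ρ X (op s) l| + |TT ρ (X / 4) (op s) l|) ^ 2 := by
    have := sq_sum_le_card_mul_sum_sq (s := cl8)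
      (f := fun ρ => |TT ρ X (op s) l| + |TT ρ (X / 4) (op s) l|)
    rw [cl8_card] at this
    exact_mod_cast this
  have h4 : ∑ ρ ∈ cl8, (|TT ρ X (op s) l| + |TT ρ (X / 4) (op s) l|) ^ 2 ≤
      2 * ∑ ρ ∈ cl8, (TT ρ X (op s) l ^ 2 + TT ρ (X / 4) (op s) l ^ 2) := by
    rw [mul_sum]
    refine sum_le_sum fun ρ _ => ?_
    have e1 := sq_abs (TT ρ X (op s) l)
    have e2 := sq_abs (TT ρ (X / 4) (op s) l)
    nlinarith [sq_nonneg (|TT ρ X (op s) l| - |TT ρ (X / 4) (op s) l|)]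
  linarith

theorem sumS (hL : S_LSK) (hR : S_RED) (hT : S_TWO) (hD : S_DIV) : S_SUM := by
  intro A δ hδ
  obtain ⟨C1, hC10, hC1⟩ := hL (A + 1) (δ / 2) (by positivity)
  obtain ⟨C2, hC20, hC2⟩ := hD (δ / (2 * (A + 1))) (by positivity)
  have hl2 : 0 < Real.log 2 := Real.log_pos (by norm_num)
  obtain ⟨C3, hC3⟩ : ∃ C3 : ℝ, C3 = A * (1 / (δ / 2 * Real.log 2) + 1) + 1 := ⟨_, rfl⟩
  have hC30 : 0 < C3 := by rw [hC3]; positivity
  obtain ⟨C4, hC4⟩ : ∃ C4 : ℝ, C4 = 12 * (12 * (2 * (C3 * (2 * C1)))) := ⟨_, rfl⟩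
  have hC40 : 0 < C4 := by rw [hC4]; positivity
  refine ⟨8 * C2 ^ 2 + C4, by positivity, fun ε hε X Y l hX hYX hl hlX => ?_⟩
  have hX0 : (0 : ℝ) < X := by exact_mod_cast hX
  have hX1 : (1 : ℝ) ≤ X := by exact_mod_cast hX
  have hXp : 0 < (X : ℝ) ^ (1 + δ) := Real.rpow_pos_of_pos hX0 _
  by_cases hX2 : X = 1
  · subst hX2
    rw [one_pow]
    have : (sqf 1).filter (fun s => s ≠ 1) = ∅ := by
      rw [filter_eq_empty_iff]
      intro s hs
      unfold sqf at hs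
      rw [mem_filter, mem_Icc] at hs
      intro h
      omega
    rw [this, sum_empty]
    positivity
  have hX2' : 2 ≤ X := by omega
  -- splitting
  have hsplit : ∑ s ∈ (sqf (X ^ A)).filter (fun s => s ≠ 1), KK ε Y s l ^ 2 / s ≤
      KK ε Y 2 l ^ 2 / 2 + ∑ s ∈ (sqf (X ^ A)).filter (fun s => 3 ≤ s), KK ε Y s l ^ 2 / s := by
    have h1 : (sqf (X ^ A)).filter (fun s => s ≠ 1) ⊆
        insert 2 ((sqf (X ^ A)).filter (fun s => 3 ≤ s)) := by
      intro s hs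
      rw [mem_filter] at hs
      rw [mem_insert, mem_filter]
      have h2 := hs.1
      unfold sqf at h2
      rw [mem_filter, mem_Icc] at h2
      by_cases h3 : s = 2
      · exact Or.inl h3
      · exact Or.inr ⟨hs.1, by have := hs.2; omega⟩
    refine (sum_le_sum_of_subset_of_nonneg h1 fun s _ _ => by positivity).trans ?_
    rw [sum_insert (by rw [mem_filter]; omega)]
    push_cast
    exact le_rfl
  -- the term s = 2
  have h2t : KK ε Y 2 l ^ 2 / 2 ≤ 8 * C2 ^ 2 * (X : ℝ) ^ (1 + δ) := by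
    have h1 := hT ε hε Y l hl
    have h2 : (l.divisors.card : ℝ) ≤ C2 * (X : ℝ) ^ (δ / 2) := by
      refine (hC2 l hl).trans (mul_le_mul_of_nonneg_left ?_ (by linarith))
      have h3 : (l : ℝ) ≤ (X : ℝ) ^ (A + 1) := by
        have : l ≤ X ^ (A + 1) := hlX.trans (Nat.pow_le_pow_right hX (by omega))
        exact_mod_cast this
      calc (l : ℝ) ^ (δ / (2 * (A + 1))) ≤ ((X : ℝ) ^ (A + 1)) ^ (δ / (2 * (A + 1))) :=
            Real.rpow_le_rpow (Nat.cast_nonneg l) h3 (by positivity)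
        _ = (X : ℝ) ^ (δ / 2) := by
            rw [← Real.rpow_natCast, ← Real.rpow_mul hX0.le]
            congr 1
            push_cast
            field_simp
    have h3 : KK ε Y 2 l ^ 2 ≤ (4 * l.divisors.card * Real.sqrt X) ^ 2 := by
      rw [← sq_abs]
      refine pow_le_pow_left₀ (abs_nonneg _) (h1.trans ?_) 2
      exact mul_le_mul_of_nonneg_left (Real.sqrt_le_sqrt (by exact_mod_cast hYX)) (by positivity)
    have h4 : (4 * (l.divisors.card : ℝ) * Real.sqrt X) ^ 2 = 16 * (l.divisors.card : ℝ) ^ 2 * X := by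
      rw [mul_pow, Real.sq_sqrt hX0.le]
      ring
    have h5 : (l.divisors.card : ℝ) ^ 2 ≤ C2 ^ 2 * (X : ℝ) ^ δ := by
      have h6 := pow_le_pow_left₀ (Nat.cast_nonneg _) h2 2
      refine h6.trans (le_of_eq ?_)
      rw [mul_pow, ← Real.rpow_natCast ((X : ℝ) ^ (δ / 2)), ← Real.rpow_mul hX0.le]
      congr 2
      push_cast
      ring
    have h6 : (X : ℝ) ^ (1 + δ) = X * (X : ℝ) ^ δ := by
      rw [Real.rpow_add hX0, Real.rpow_one]
    rw [h6]
    have h7 := mul_le_mul_of_nonneg_right h5 hX0.le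
    rw [h4] at h3
    nlinarith
  -- the mean squares
  have hNX : (1 : ℕ) ≤ X ^ A := Nat.one_le_pow _ _ hX
  obtain ⟨B, hB⟩ : ∃ B : ℝ, B = C1 * (X : ℝ) ^ (1 + δ / 2) := ⟨_, rfl⟩
  have hB0 : 0 ≤ B := by rw [hB]; positivity
  have hlog : ((Nat.log 2 (X ^ A) : ℕ) : ℝ) + 1 ≤ C3 * (X : ℝ) ^ (δ / 2) := by
    have h1 : Nat.log 2 (X ^ A) ≤ A * (Nat.log 2 X + 1) := by
      have h2 : X ^ A < 2 ^ (A * (Nat.log 2 X + 1) + 1) := by
        have h3 : X ≤ 2 ^ (Nat.log 2 X + 1) := (Nat.lt_pow_succ_log_self (by norm_num) X).le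
        calc X ^ A ≤ (2 ^ (Nat.log 2 X + 1)) ^ A := Nat.pow_le_pow_left h3 A
          _ = 2 ^ (A * (Nat.log 2 X + 1)) := by rw [← pow_mul, mul_comm]
          _ < 2 ^ (A * (Nat.log 2 X + 1) + 1) := Nat.pow_lt_pow_right (by norm_num) (by omega)
      have := Nat.log_lt_of_lt_pow (by omega) h2
      omega
    have h2 : ((Nat.log 2 (X ^ A) : ℕ) : ℝ) ≤ A * ((Nat.log 2 X : ℕ) + 1) := by exact_mod_cast h1
    have h3 := log2_le X hX (δ / 2) (by positivity)
    have h4 : (1 : ℝ) ≤ (X : ℝ) ^ (δ / 2) := Real.one_le_rpow hX1 (by positivity)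
    have hA0 : (0 : ℝ) ≤ A := Nat.cast_nonneg A
    calc ((Nat.log 2 (X ^ A) : ℕ) : ℝ) + 1 ≤ A * ((Nat.log 2 X : ℕ) + 1) + 1 := by linarith
      _ ≤ A * ((X : ℝ) ^ (δ / 2) / (δ / 2 * Real.log 2) + (X : ℝ) ^ (δ / 2)) + (X : ℝ) ^ (δ / 2) := by
          have := mul_le_mul_of_nonneg_left (add_le_add h3 h4) hA0
          linarith
      _ = C3 * (X : ℝ) ^ (δ / 2) := by
          rw [hC3]
          ring
  have hmain : ∀ ρ ∈ cl8, ∀ Z : ℕ, Z ≤ X →
      ∑ s ∈ (sqf (X ^ A)).filter (fun s => 3 ≤ s), TT ρ Z (op s) l ^ 2 / s ≤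
        2 * (C3 * (2 * C1)) * (X : ℝ) ^ (1 + δ) := by
    intro ρ hρ Z hY
    refine (to_odd (X ^ A) (fun s => TT ρ Z s l ^ 2) (fun s => sq_nonneg _)).trans ?_
    have h1 := dyad (X ^ A) hNX (fun s => TT ρ Z s l ^ 2) (fun s => sq_nonneg _) B (by
      intro S hS1 hS2
      have h3 : S ≤ X ^ (A + 1) := by
        refine hS2.trans ?_
        rw [pow_succ, mul_comm]
        exact Nat.mul_le_mul_left _ hX2'
      have h4 : l ≤ X ^ (A + 1) := hlX.trans (Nat.pow_le_pow_right hX (by omega))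
      have h5 := hC1 X Z S l ρ hX hY hS1 h3 hl h4 hρ
      rw [hB]
      exact h5)
    have h2 : ((Nat.log 2 (X ^ A) : ℕ) + 1 : ℝ) * (2 * B) ≤ C3 * (X : ℝ) ^ (δ / 2) * (2 * B) :=
      mul_le_mul_of_nonneg_right hlog (by positivity)
    have h3 : (X : ℝ) ^ (δ / 2) * (X : ℝ) ^ (1 + δ / 2) = (X : ℝ) ^ (1 + δ) := by
      rw [← Real.rpow_add hX0]
      congr 1
      ring
    have h4 : C3 * (X : ℝ) ^ (δ / 2) * (2 * B) = C3 * (2 * C1) * (X : ℝ) ^ (1 + δ) := by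
      rw [hB, ← h3]
      ring
    rw [h4] at h2
    have h5 := mul_le_mul_of_nonneg_left (h1.trans h2) (by norm_num : (0 : ℝ) ≤ 2)
    refine h5.trans (le_of_eq ?_)
    ring
  have hbig : ∑ s ∈ (sqf (X ^ A)).filter (fun s => 3 ≤ s), KK ε Y s l ^ 2 / s ≤
      C4 * (X : ℝ) ^ (1 + δ) := by
    have h1 : ∀ s ∈ (sqf (X ^ A)).filter (fun s => 3 ≤ s), KK ε Y s l ^ 2 / s ≤
        12 * ∑ ρ ∈ cl8, (TT ρ Y (op s) l ^ 2 / s + TT ρ (Y / 4) (op s) l ^ 2 / s) := by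
      intro s hs
      rw [mem_filter] at hs
      have hs1 := hs.1
      unfold sqf at hs1
      rw [mem_filter] at hs1
      have h2 := kk_sq hR ε hε Y s l hs1.2 hl
      have h3 := div_le_div_of_nonneg_right h2 (Nat.cast_nonneg (α := ℝ) s)
      refine h3.trans (le_of_eq ?_)
      rw [mul_div_assoc, sum_div]
      congr 1
      exact sum_congr rfl fun ρ _ => add_div _ _ _
    refine (sum_le_sum h1).trans ?_
    rw [← mul_sum, sum_comm]
    have h2 : ∀ ρ ∈ cl8, ∑ s ∈ (sqf (X ^ A)).filter (fun s => 3 ≤ s),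
        (TT ρ Y (op s) l ^ 2 / s + TT ρ (Y / 4) (op s) l ^ 2 / s) ≤
        2 * (2 * (C3 * (2 * C1)) * (X : ℝ) ^ (1 + δ)) := by
      intro ρ hρ
      rw [sum_add_distrib]
      have e1 := hmain ρ hρ Y hYX
      have e2 := hmain ρ hρ (Y / 4) ((Nat.div_le_self Y 4).trans hYX)
      linarith
    have h3 := sum_le_card_nsmul _ _ _ h2
    rw [cl8_card, nsmul_eq_mul] at h3
    have h4 := mul_le_mul_of_nonneg_left h3 (by norm_num : (0 : ℝ) ≤ 12)
    refine h4.trans (le_of_eq ?_)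
    rw [hC4]
    push_cast
    ring
  refine hsplit.trans ?_
  rw [add_mul]
  exact add_le_add h2t hbig

end

end Pool.Agent.Q208.TQ
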